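import Pool.Agent.Y229.PG.Cmp

/-!
# The strong monodromy conjecture for generic compositions and products of powers

Let `Φ(x, z)` and `p_1(x), …, p_k(x)` be polynomials whose exponents are arbitrary and whose
coefficients are generic (at some exponents, for instance at the vertices of the Newton polytopes;
the other terms are arbitrary), and let `f(x) = Φ(x, p_1(x) / c_1, …, p_k(x) / c_k)`. We prove that
`b_f(s) Z_f(s)` is a polynomial, where `b_f` is the Bernstein-Sato polynomial and `Z_f` the GLOBAL
topological zeta function of `f`: every pole of `Z_f` is a root of `b_f`, of at least the same order.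

Examples are all products of powers `x ^ u ∏_i p_i ^ (e_i)` of generic polynomials `p_i` (`Φ` a
monomial; no pole has to be excluded), sums of such products, iterated compositions such as
`((x_2 ^ 2 - x_1 ^ 3) ^ 2 - x_1 ^ 5 x_2) ^ 2 + …` with generic coefficients, and so on. These `f` are in
general not reduced and degenerate with respect to their Newton polytopes, in all coordinates, and
their singularities are not isolated.

Method. Let `V = {l_1 = ⋯ = l_k = 0}`, `l_i = c_i z_i - p_i(x)`, be the graph; `f = Φ|V`, that is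
`Φ = f + ∑ q_i l_i`. The polynomial `f + y_1 z_1 + ⋯ + y_k z_k` becomes `G = Φ + ∑ y_i l_i` by an
automorphism of the polynomial ring (`z_i ↦ l_i`, `y_i ↦ y_i + q_i`), and `G` has generic coefficients. If
`b_f(s) = (s + 1) c(s)`, then `c(s) f ^ s ∈ D[s] (f, ∂_1 f, …, ∂_N f) f ^ s`, and we show that this gives a
functional equation of `f + ∑ y_i z_i` with `(s + 1) c(s + k)`. By the theorem for generic coefficients
(`W425.GN.gen_top`), `(s + 1) c(s + k) Z_G(s)` is a polynomial. Finally `Z_f` and `Z_G` are related by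
`1 - Z_f(s) = (1 - Z_G(s - k)) s (s - k + 1) / ((s - k) (s + 1))` (integrate over `y_k` first: if
`ord z = c`, then the value `f + y z` is, for fixed `x` and `z`, distributed like `t ^ c y` if `c ≤ ord f`, and
has the order `ord f` otherwise).
-/

set_option autoImplicit false

namespace Pool.Agent.Results.MP_504089_ag.GenericCompositions

open Polynomial Pool.Agent.H628R4.TP Pool.Agent.W422.GC
open Pool.Agent.W425.SM (SmoothFan Principal)
open Pool.Agent.W425.MM (NonD we wc)
open Pool.Agent.Y229.RE (unstab ex)
open Pool.Agent.Y229.PS (tup hG)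
open Pool.Agent.Y229.PG (HullT)

/-- **The strong monodromy conjecture (topological version, global), with orders, for generic
compositions.**

Let `F ⊆ ℂ` be a field and let exponents `m_j ∈ ℕ ^ (N + k)` of monomials in `x_1, …, x_N, z_1, …, z_k`
be given, `j = 1, …, r`, in groups `π j ∈ {0, …, k}` (in each group the `m_j` are distinct; in the
group `0` they are nonzero). For `a ∈ ℂ ^ r` let `tup π m a H i = ∑_{π j = i} a_j X ^ (m_j) + H_i`, where
`H_i` is a polynomial over `F` with exponents in the convex hull of the `m_j` with `π j = i` (`HullT`).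
We write `Φ_a = tup π m a H 0` and `l_i = tup π m a H i`, `i = 1, …, k`. There is a nonzero polynomial
`g` over `F` such that for all `a ∈ ℂ ^ r` with `g(a) ≠ 0`:

* The polynomial `G_a = Φ_a + ∑_i y_i l_i` is nondegenerate (`NonD`, for its exponents and
  coefficients: `ex π m` and `a`, together with those of `hG H = H_0 + ∑ y_i H_i`).

* Let `l_i = c_i z_i - p_i(x)`, `c_i ≠ 0`, for `i = 1, …, k`, and let
  `f(x) = Φ_a(x, p_1(x) / c_1, …, p_k(x) / c_k)` be non-constant. Then `b(s) (s - k) Z_f(s)` is a
  polynomial for every `b` with `IsBFunction f b` (`b(s) f ^ s = P(s) f ^ (s + 1)` for a differential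
  operator `P(s)` in the Weyl algebra, polynomial in `s`; for example `b = b_f`); so every pole
  `s0 ≠ k` of `Z_f` is a root of `b`, of at least the same order (all the poles of `Z_f` are negative
  rational numbers).

  Here `Z_f = unstab k 1 Z` is the global topological zeta function of `f`, given by
  `1 - Z_f(s) = (1 - Z(s - k)) s (s - k + 1) / ((s - k) (s + 1))`, where `Z = topZetaG (ex π m) R` is the
  global topological zeta function of the nondegenerate polynomial `G_a`, computed on the toric
  resolution of any smooth fan `R` subdividing the orthant of `ℝ ^ (N + 2 k)` on which the ideal of the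
  monomials of `G_a` becomes principal.

* More generally, the same holds for every non-constant `f ∈ ℂ[x]` with `Φ_a = f + ∑ q_i l_i`, `q_i ∈ ℂ[x, z]`,
  if `(x, z) ↦ (x, l(x, z))` is an automorphism of `ℂ ^ (N + k)`, that is `θ(x_i) = x_i`, `θ(z_i) = l_i`
  for an automorphism `θ` of the algebra `ℂ[x, z]`; for example if `l_i = c_i z_i - p_i(x, z_1, …, z_{i-1})`,
  `c_i ≠ 0` (iterated compositions). -/
theorem result {N k r : ℕ} (hr : 1 ≤ r) (F : Subfield ℂ) (π : Fin r → Fin (k + 1))
    (m : Fin r → Fin (N + k) → ℕ) (hinj : ∀ j j', π j = π j' → m j = m j' → j = j')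
    (hm : ∀ j, π j = 0 → m j ≠ 0) (H : Fin (k + 1) → MvPolynomial (Fin (N + k)) F)
    (hH : ∀ i, ∀ w ∈ (H i).support, HullT π m i w) :
    ∃ g : MvPolynomial (Fin r) F, g ≠ 0 ∧ ∀ a : Fin r → ℂ, MvPolynomial.aeval a g ≠ 0 →
      NonD (Fin.append (ex π m) (we (hG H)))
        (Fin.append a (fun l => algebraMap F ℂ (wc (hG H) l))) ∧
      (∀ (c : Fin k → ℂ) (p : Fin k → MvPolynomial (Fin N) ℂ), (∀ i, c i ≠ 0) →
        (∀ i : Fin k, tup π m a H i.succ = MvPolynomial.C (c i) * MvPolynomial.X (Fin.natAdd N i) -
          MvPolynomial.rename (Fin.castAdd k) (p i)) →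
        ∀ f : MvPolynomial (Fin N) ℂ, f = MvPolynomial.aeval (Fin.append MvPolynomial.X
          fun i => MvPolynomial.C (c i)⁻¹ * p i) (tup π m a H 0) → f.totalDegree ≠ 0 →
        ∀ b : ℂ[X], IsBFunction f b →
        ∀ R : SmoothFan (N + (k + k)), Principal (ex π m) R →
          ∃ P : ℂ[X], algebraMap ℂ[X] (RatFunc ℂ) (b * (X - C (k : ℂ))) *
            unstab k 1 (topZetaG (ex π m) R) = algebraMap ℂ[X] (RatFunc ℂ) P) ∧
      (∀ θ : MvPolynomial (Fin (N + k)) ℂ ≃ₐ[ℂ] MvPolynomial (Fin (N + k)) ℂ,
        (∀ i, θ (MvPolynomial.X (Fin.castAdd k i)) = MvPolynomial.X (Fin.castAdd k i)) →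
        (∀ i, θ (MvPolynomial.X (Fin.natAdd N i)) = tup π m a H i.succ) →
        ∀ (f : MvPolynomial (Fin N) ℂ) (q : Fin k → MvPolynomial (Fin (N + k)) ℂ),
          f.totalDegree ≠ 0 → tup π m a H 0 =
            MvPolynomial.rename (Fin.castAdd k) f + ∑ i, q i * tup π m a H i.succ →
        ∀ b : ℂ[X], IsBFunction f b →
        ∀ R : SmoothFan (N + (k + k)), Principal (ex π m) R →
          ∃ P : ℂ[X], algebraMap ℂ[X] (RatFunc ℂ) (b * (X - C (k : ℂ))) *
            unstab k 1 (topZetaG (ex π m) R) = algebraMap ℂ[X] (RatFunc ℂ) P) := by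
  obtain ⟨g, hg0, hg⟩ := Pool.Agent.Y229.PG.graph_strong hr F π m hinj hm H hH
  refine ⟨g, hg0, fun a ha => ⟨(hg a ha).1, ?_, (hg a ha).2⟩⟩
  intro c p hc hl f hf hf0 b hb R hR
  obtain ⟨θ, h1, h2⟩ := Pool.Agent.Y229.PG.graph_equiv c hc p
  obtain ⟨q, hq⟩ := Pool.Agent.Y229.PG.graph_restrict c hc p (tup π m a H 0)
  refine (hg a ha).2 θ h1 (fun i => ?_) f q hf0 ?_ b hb R hR
  · rw [h2, hl]
  · rw [hf]
    simp only [hl]
    exact hq

end Pool.Agent.Results.MP_504089_ag.GenericCompositions
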