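import Mathlib
import Pool.Agent.TH231.PP.Fin

/-!
# The strong monodromy conjecture for products of powers of generic polynomials

Let `F ⊆ ℂ` be a field (for example `ℚ`) and `f = ∏_k g_k ^ (m_k)` with arbitrary multiplicities
`m_k ≥ 1`, where `g_k = ∑_{g j = k} a_j x ^ (v j) + h_k` and `h_k ∈ F[x_1, …, x_N]` is ANY polynomial
with exponents in the Newton polytope `conv {v j : g j = k}`. So `f` is neither reduced nor Newton
nondegenerate in general, its singularities need not be isolated, and only the coefficients `a_j` at
some exponents `v j`, which include the vertices of the Newton polytopes of the `g_k`, have to be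
generic: there is a nonzero polynomial `G ∈ F[y_1, …, y_r]` such that `G(a) ≠ 0` is enough. (The
coefficients `a_j` may be rational numbers.)

Let `Z` be the global topological zeta function of `f`. Then:

* every pole of `Z` which is not of the form `- i / m_k`, `i ≥ 0`, is a root of the Bernstein-Sato
  polynomial `b_f`, of at least the same order;
* every pole of `Z` with real part at least `-1` is a root of `b_f`, if for every `k` two different
  exponents `v j` with `g j = k` are given, or `g_k` has an irreducible factor which does not divide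
  the other `g_l`.

Here this was known for a single factor (`P = 0`, `m_0 = 1`: `MP_504089_ag.GenericCoefficients`), for
the germs at the origin (`MP_6163c8_ag.ProductsOfPowersLocal`), and, for nondegenerate tuples, in the
weak form with `b_f(s_0 + z) = 0` for some integer `z` (`MP_a2a574_ag.NondegenerateProducts`).
-/

set_option autoImplicit false

namespace Pool.Agent.Results.MP_504089_ag.ProductsOfPowers

open MvPolynomial Pool.Agent.W423.MG Pool.Agent.W423.NX Pool.Agent.W425.SM Pool.Agent.TH231.PP

/-- **The strong monodromy conjecture (topological version) for `f = ∏_k g_k ^ (m_k)`,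
`g_k = ∑_{g j = k} a_j x ^ (v j) + h_k`, with generic coefficients `a_j`.**

`HullG False g v k w` says that `w` is in the convex hull of the `v j`, `g j = k`, and
`polyH g v a h k` is the polynomial `g_k`.

`NonDT g v h a`: the polynomial `∑_k y_k g_k` (in the variables `y_k`, `x_i`) is nondegenerate with
respect to its Newton polyhedra, that is, the tuple `(g_k)` is nondegenerate.

`IsBFunction f b` says that `b(s) f ^ s = P(s) f ^ (s + 1)` for a differential operator `P(s)` in
the Weyl algebra, polynomial in `s`; the Bernstein-Sato polynomial `b_f` is the monic one of least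
degree of these polynomials `b`.

`R` is any smooth fan with support the positive orthant on which, for each `k`, the ideal
generated by the monomials `x ^ (v j)`, `g j = k`, becomes principal, and
`topZetaP False g v θ m R` is the global topological zeta function of `f`, computed on the embedded
resolution `X_R`. The heights `θ` are only used to compute the mixed volumes in the Euler
characteristics of the strata.

Conclusions: (1) `b(s) D(s) Z(s)` is a polynomial, where `D` is a product of factors `m_k s + i`.
(2) If `m_k s + i ≠ 0` for all `k` and all `i ≥ 0`, then the order of the pole `s` of `Z` is at most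
the order of the root `s` of `b`. (3) If for every `k` there are two different exponents `v j` with
`g j = k`, or `g_k` has an irreducible factor which does not divide the other `g_l`, then every pole
of `Z` with real part at least `-1` is a root of `b`. -/
theorem result {r N P : ℕ} {F : Type} [Field F] [Algebra F ℂ]
    (g : Fin r → Fin (P+1)) (v : Fin r → Fin N → ℕ)
    (h : Fin (P+1) → MvPolynomial (Fin N) F) (m : Fin (P+1) → ℕ) (hm : ∀ k, 1 ≤ m k)
    (hg : ∀ k, ∃ j, g j = k) (hh : ∀ k, ∀ w ∈ (h k).support, HullG False g v k w) :
    ∃ G : MvPolynomial (Fin r) F, G ≠ 0 ∧ ∀ a : Fin r → ℂ, aeval a G ≠ 0 →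
      NonDT g v h a ∧
      ∀ b : Polynomial ℂ,
      Pool.Agent.H628R4.TP.IsBFunction (∏ k, polyH g v a h k ^ m k) b →
      ∀ θ : Fin r → ℝ, LinearIndependent ℚ θ → ∀ R : SmoothFan N, PrincipalG g v R →
        (∃ (n : ℕ) (Q : Polynomial ℂ), algebraMap (Polynomial ℂ) (RatFunc ℂ) (b *
          (∏ k : Fin (P+1), ∏ i ∈ Finset.range n,
            (Polynomial.C ((m k : ℕ) : ℂ) * Polynomial.X + Polynomial.C (i : ℂ))) ^ 3) *
          topZetaP False g v θ m R = algebraMap (Polynomial ℂ) (RatFunc ℂ) Q) ∧
        (∀ s : ℂ, (∀ (k : Fin (P+1)) (i : ℕ), (m k : ℂ) * s + (i : ℂ) ≠ 0) →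
          (Polynomial.X - Polynomial.C s) ^
            (topZetaP False g v θ m R).denom.rootMultiplicity s ∣ b) ∧
        ((∀ k, (∃ j j', g j = k ∧ g j' = k ∧ v j ≠ v j') ∨
            ∃ π, Irreducible π ∧ π ∣ polyH g v a h k ∧ ∀ l, l ≠ k → ¬ π ∣ polyH g v a h l) →
          ∀ s : ℂ, -1 ≤ s.re → (topZetaP False g v θ m R).denom.eval s = 0 → b.eval s = 0) := by
  obtain ⟨G, hG0, hG⟩ := finG g v h m hm hg hh
  refine ⟨G, hG0, fun a ha => ⟨(hG a ha).1, fun b hb θ hθ R hR => ?_⟩⟩
  obtain ⟨h1, h2, h3⟩ := (hG a ha).2 b hb θ hθ R hR
  refine ⟨h1, h2, fun hown => h3 fun k => ?_⟩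
  rcases hown k with h4 | ⟨π, h4, h5, h6⟩
  · exact Or.inl ⟨h4, fun h => h.elim⟩
  · exact Or.inr ⟨π, h4, h5, h6, fun h => h.elim⟩

end Pool.Agent.Results.MP_504089_ag.ProductsOfPowers
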