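import Pool.Agent.Y230.TH.TopFin

/-!
# The strong monodromy conjecture for Thom-Sebastiani sums `∑ y_j f_j(x) + g(z)`

We prove the strong monodromy conjecture (every pole of the global topological zeta function of `F` is
a root of the Bernstein-Sato polynomial of `F`) for the following polynomials `F`.

Let `𝓘` and `𝓗` be the least classes of ideals and of hypersurfaces with the following properties.

* `𝓘` contains the powers `(x ^ m)`; all non-zero ideals of `ℂ[x, y]`; the ideals of
  `ℂ[x₀, x₁, x₂]` generated by forms of the same degree, three of which are algebraically independent;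
  the ideals generated by forms of the same degree without a common zero outside the origin; the ideals
  whose numerical data come from Rees divisors; the ideals `(f_1, …, f_k)` in any number of variables
  with very general coefficients at the vertices of the Newton polytopes of the `f_i` and arbitrary
  other coefficients; the principal ideals `(h)` with `h` in `𝓗`; and `𝓘` is closed under sums and
  products in disjoint sets of variables.
* `𝓗` contains all plane curves and the polynomials with very general coefficients at the
  vertices of the Newton polytope and arbitrary other terms; for `(f_j)` in `𝓘` and `g` in `𝓗` it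
  contains `∑ y_j f_j(x)` and `∑ y_j f_j(x) + g(z)`, with new variables `y_j`; and `𝓗` is closed
  under products in disjoint sets of variables and under dropping variables which do not occur.

For example, `∑ y_j f_j(x₁, x₂) + g(z₁, z₂)` with arbitrary polynomials `f_j` and `g` in two variables
each, and all polynomials which are obtained if this construction is repeated.

The second part treats `∏ t, F_t ^ a t`, `F_t = ∑_j y_{t,j} f_{t,j}(x)`, for the ideals
`∏ t, (f_{t,j})_j ^ a t` in `𝓘`.

For `F = ∑ y_j f_j(x) + g(z)` the zeta function is obtained from the ones of `(f_j)` and `g` by a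
product of exponential polynomials, see `Pool/Agent/Y230/TH/TopDefs`, so that the poles `≠ -1` are
among the sums `α + β`, where `α` is a pole of `Z_I` and `β` a pole of `(s + 1) Z_g`; and `α + β` is a
root of `b_F(s) / (s + 1)`, since `α` is a root of `b_I` and `β` is one of `b_g(s) / (s + 1)`: this is
proved with the description of the roots of `b_F(s) / (s + 1)` by the microlocal `b`-function.
-/

set_option autoImplicit false

namespace Pool.Agent.Results.MP_504089_ag.ThomSebastianiGlobal

open MvPolynomial Pool.Agent.W574.SM Pool.Agent.W574.RO Pool.Agent.H628R4.TP Pool.Agent.TH192.DT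
  Pool.Agent.Y229 Pool.Agent.Y228.AT Pool.Agent.Y230.TH

/-- **The strong monodromy conjecture for Thom-Sebastiani sums `∑ y_j f_j(x) + g(z)`.** Let
`TT AllGlobal StrongHyp c A Z` be the classes of ideals (`c = false`) and of hypersurfaces
(`c = true`) with their global topological zeta functions `Z` which are obtained from the ideals in
`AllGlobal` and the hypersurfaces in `StrongHyp` by sums and products in disjoint sets of
variables, by `∑ y_j f_j(x)` and by `∑ y_j f_j(x) + g(z)`.

(1) Let `F` be a polynomial with `TT AllGlobal StrongHyp false (F) Z`, and let `b` satisfy a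
functional equation `b(s) F ^ s = P(s) F ^ (s + 1)`, where `P(s)` is a differential operator with
polynomial coefficients. Then `b(s₀) = 0` for every pole `s₀` of `Z`.

(2) Let the `f_{t,j}` be polynomials in finitely many variables `x_i`, let
`F_t = ∑_j y_{t,j} f_{t,j}(x)` (`blockForm`) and `F = ∏ t, F_t ^ a t` (`powProd`), `a t ≥ 1`, and let
the ideal `∏ t, (f_{t,j})_j ^ a t`, which is generated by the family `powFam a f`, satisfy
`TT AllGlobal StrongHyp false (powFam a f) Z'`. The global topological zeta function of `F` is
`Z' ∏ t, 1 / (1 + a t s)`: if `Y` is a log resolution of the ideal, then `Y` times the space of the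
`y_{t,j}` is an embedded resolution of `F`, because locally on `Y`, `F_t` is one of the `f_{t,j}` times
a linear form in the `y_{t,j}`, one of whose coefficients is a unit. Let `b` satisfy a functional
equation of `F`. Then `b(s₀) = 0` for every pole `s₀` of `Z' ∏ t, 1 / (1 + a t s)`. -/
theorem result :
    (∀ (σ : Type) (F : MvPolynomial σ ℂ) (Z : RatFunc ℂ),
      TT AllGlobal StrongHyp false ⟨σ, Fin 1, fun _ => F⟩ Z →
      ∀ b : Polynomial ℂ, IsBFunction F b →
      ∀ s₀ : ℂ, Z.denom.eval s₀ = 0 → b.eval s₀ = 0) ∧
    (∀ (σ T : Type) [Finite σ] [Fintype T] [DecidableEq T] [Nonempty T] (κ : T → Type)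
      [∀ t, Fintype (κ t)] (a : T → ℕ), (∀ t, 1 ≤ a t) →
      ∀ (f : (t : T) → κ t → MvPolynomial σ ℂ) (Z' : RatFunc ℂ),
      TT AllGlobal StrongHyp false (powFam a f) Z' →
      ∀ b : Polynomial ℂ, IsBFunction (powProd a f) b →
      ∀ s₀ : ℂ, (Z' * ∏ t, fac (a t) 1).denom.eval s₀ = 0 → b.eval s₀ = 0) := by
  classical
  refine ⟨fun σ F Z h b hb s₀ hs => tt_strong F Z h b hb s₀ hs, ?_⟩
  intro σ T _ _ _ _ κ _ a ha f Z' h b hb s₀ hs
  exact tt_strong_pow a ha f Z' h b hb s₀ hs

end Pool.Agent.Results.MP_504089_ag.ThomSebastianiGlobal
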